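import Pool.Agent.BE01.Stmts

/-!
# Squad BE01: module PLY (MP_be01ff_an)
-/

namespace Pool.Agent.BE01.H48

open Set Filter Topology Pool.Agent.BE01
open scoped InnerProductSpace

section

variable {M : Type} [NormedAddCommGroup M] [NormedSpace ℝ M]

theorem eval_mem (prm : PrmStmt) {α c : ℕ} (a : Polynomial ℝ) {P : ℝ → ℝ → M}
    (hP : P ∈ PP M α c) : (fun ψ δ => a.eval δ • P ψ δ) ∈ PP M α c := by
  have e : (fun ψ δ : ℝ => a.eval δ • P ψ δ) =
      ∑ i ∈ Finset.range (a.natDegree + 1), a.coeff i • fun ψ δ : ℝ => δ ^ i • P ψ δ := by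
    funext ψ δ
    rw [Polynomial.eval_eq_sum_range]
    simp only [Finset.sum_apply, Pi.smul_apply]
    rw [Finset.sum_smul]
    refine Finset.sum_congr rfl fun i _ => ?_
    rw [smul_smul]
  rw [e]
  refine Submodule.sum_mem _ fun i _ => Submodule.smul_mem _ _ ?_
  exact (prm M M (ContinuousLinearMap.id ℝ M) α c).1 c i P hP (by omega)

theorem ply (der : DerStmt) (prm : PrmStmt) : PlyStmt := by
  intro M _ _ α c ω a b P hP
  obtain ⟨h1, h2, h3, h4, h5, -⟩ := der M α c P hP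
  refine ⟨eval_mem prm a hP, ?_, ?_, ?_⟩
  · have e : DD α ω a b P = (fun ψ δ => a.eval δ • P ψ δ) +
        (α : ℝ) • (fun ψ δ => a.eval δ • ddl P ψ δ) + ω • dps P +
        fun ψ δ => b.eval δ • dps P ψ δ := by
      funext ψ δ
      simp only [DD, Pi.add_apply, Pi.smul_apply, smul_add, add_smul, smul_smul]
      rw [mul_comm (a.eval δ) (α : ℝ)]
      abel
    rw [e]
    exact Submodule.add_mem _ (Submodule.add_mem _ (Submodule.add_mem _ (eval_mem prm a hP)
      (Submodule.smul_mem _ _ (eval_mem prm a h2))) (Submodule.smul_mem _ _ h1))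
      (eval_mem prm b h1)
  · intro hO ψ δ
    obtain ⟨o1, o2⟩ := h3 hO
    simp only [DD]
    rw [hO ψ δ, o1 ψ δ, o2 ψ δ]
    simp only [smul_neg, smul_add, neg_add]
  · intro k ψ δ
    have e1 : dps (fun ψ δ => δ ^ k • P ψ δ) ψ δ = δ ^ k • dps P ψ δ :=
      ((h4 ψ δ).const_smul (δ ^ k)).deriv
    have e2 : ddl (fun ψ δ => δ ^ k • P ψ δ) ψ δ = δ ^ k • ddl P ψ δ + ((k : ℝ) * δ ^ k) • P ψ δ := by
      have hd : HasDerivAt (fun s => s ^ k • P ψ s)
          (δ ^ k • deriv (fun s => P ψ s) δ + ((k : ℝ) * δ ^ (k - 1)) • P ψ δ) δ :=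
        (hasDerivAt_pow k δ).smul (h5 ψ δ).hasDerivAt
      simp only [ddl]
      rw [hd.deriv, smul_add, smul_smul, smul_smul, smul_smul]
      have e3 : δ * ((k : ℝ) * δ ^ (k - 1)) = (k : ℝ) * δ ^ k := by
        rcases Nat.eq_zero_or_pos k with hk | hk
        · subst hk
          simp
        · obtain ⟨n, rfl⟩ : ∃ n, k = n + 1 := ⟨k - 1, by omega⟩
          rw [Nat.add_sub_cancel, pow_succ]
          ring
      rw [e3, mul_comm δ (δ ^ k)]
    simp only [DD]
    rw [e1, e2]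
    simp only [smul_add, smul_smul, add_smul]
    have f1 : a.eval δ * δ ^ k = δ ^ k * a.eval δ := by ring
    have f2 : a.eval δ * ((α : ℝ) * δ ^ k) = δ ^ k * (a.eval δ * (α : ℝ)) := by ring
    have f3 : a.eval δ * ((α : ℝ) * ((k : ℝ) * δ ^ k)) = δ ^ k * ((α : ℝ) * k * a.eval δ) := by ring
    have f4 : (ω + b.eval δ) * δ ^ k = δ ^ k * ω + δ ^ k * b.eval δ := by ring
    rw [f1, f2, f3, f4, add_smul]
    abel

end

end Pool.Agent.BE01.H48
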