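import Pool.Agent.BE01.Stmts

/-!
# Squad BE01: module PRD (MP_be01ff_an)
-/

namespace Pool.Agent.BE01.H48

open Set Filter Topology Pool.Agent.BE01
open scoped InnerProductSpace

section

variable {M : Type} [NormedAddCommGroup M] [NormedSpace ℝ M]

theorem gc {α c k j : ℕ} (h : j ≤ c + α * k) (m : M) :
    (fun ψ δ : ℝ => (δ ^ k * Real.cos (j * ψ)) • m) ∈ PP M α c :=
  Submodule.subset_span ⟨k, j, h, m, Or.inl rfl⟩

theorem gs {α c k j : ℕ} (h : j ≤ c + α * k) (m : M) :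
    (fun ψ δ : ℝ => (δ ^ k * Real.sin (j * ψ)) • m) ∈ PP M α c :=
  Submodule.subset_span ⟨k, j, h, m, Or.inr rfl⟩

theorem gcz {α c k : ℕ} {z : ℤ} (h : z.natAbs ≤ c + α * k) (m : M) :
    (fun ψ δ : ℝ => (δ ^ k * Real.cos (z * ψ)) • m) ∈ PP M α c := by
  have := gc h m
  rcases Int.natAbs_eq z with hz | hz
  · rw [hz]
    simpa using this
  · rw [hz]
    have e : (fun ψ δ : ℝ => (δ ^ k * Real.cos (((-(z.natAbs : ℤ) : ℤ) : ℝ) * ψ)) • m) =
        fun ψ δ : ℝ => (δ ^ k * Real.cos (z.natAbs * ψ)) • m := by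
      funext ψ δ
      rw [Int.cast_neg, neg_mul, Real.cos_neg]
      simp
    rw [e]
    exact this

theorem gsz {α c k : ℕ} {z : ℤ} (h : z.natAbs ≤ c + α * k) (m : M) :
    (fun ψ δ : ℝ => (δ ^ k * Real.sin (z * ψ)) • m) ∈ PP M α c := by
  have := gs h m
  rcases Int.natAbs_eq z with hz | hz
  · rw [hz]
    simpa using this
  · rw [hz]
    have e : (fun ψ δ : ℝ => (δ ^ k * Real.sin (((-(z.natAbs : ℤ) : ℤ) : ℝ) * ψ)) • m) =
        (-1 : ℝ) • fun ψ δ : ℝ => (δ ^ k * Real.sin (z.natAbs * ψ)) • m := by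
      funext ψ δ
      rw [Int.cast_neg, neg_mul, Real.sin_neg]
      simp
    rw [e]
    exact Submodule.smul_mem _ _ this

end

theorem hb1 {c c' α k k' j j' : ℕ} (h : j ≤ c + α * k) (h' : j' ≤ c' + α * k') :
    ((j : ℤ) - j').natAbs ≤ (c + c') + α * (k + k') := by
  have : α * (k + k') = α * k + α * k' := by ring
  omega

theorem hb2 {c c' α k k' j j' : ℕ} (h : j ≤ c + α * k) (h' : j' ≤ c' + α * k') :
    ((j : ℤ) + j').natAbs ≤ (c + c') + α * (k + k') := by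
  have : α * (k + k') = α * k + α * k' := by ring
  omega

theorem prd : PrdStmt := by
  intro M₁ M₂ M₃ _ _ _ _ _ _ β α c c' P P' hP hP'
  have key : ∀ P₀ : ℝ → ℝ → M₁, P₀ ∈ {P : ℝ → ℝ → M₁ | ∃ k j : ℕ, j ≤ c + α * k ∧ ∃ m : M₁,
      (P = fun ψ δ => (δ ^ k * Real.cos (j * ψ)) • m) ∨
      P = fun ψ δ => (δ ^ k * Real.sin (j * ψ)) • m} → ∀ P₁ : ℝ → ℝ → M₂,
      P₁ ∈ {P : ℝ → ℝ → M₂ | ∃ k j : ℕ, j ≤ c' + α * k ∧ ∃ m : M₂,
      (P = fun ψ δ => (δ ^ k * Real.cos (j * ψ)) • m) ∨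
      P = fun ψ δ => (δ ^ k * Real.sin (j * ψ)) • m} →
      (fun ψ δ => β (P₀ ψ δ) (P₁ ψ δ)) ∈ PP M₃ α (c + c') := by
    rintro P₀ ⟨k, j, hj, m, h0⟩ P₁ ⟨k', j', hj', m', h1⟩
    have a1 := hb1 hj hj'
    have a2 := hb2 hj hj'
    rcases h0 with h0 | h0 <;> rcases h1 with h1 | h1
    · have e : (fun ψ δ : ℝ => β (P₀ ψ δ) (P₁ ψ δ)) =
          (1 / 2 : ℝ) • ((fun ψ δ : ℝ => (δ ^ (k + k') * Real.cos (((j : ℤ) - j' : ℤ) * ψ)) •
            β m m') + fun ψ δ : ℝ => (δ ^ (k + k') * Real.cos (((j : ℤ) + j' : ℤ) * ψ)) •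
            β m m') := by
        funext ψ δ
        rw [h0, h1]
        simp only [map_smul, _root_.smul_apply, Pi.smul_apply, Pi.add_apply,
          smul_smul, ← add_smul]
        have : (((j : ℤ) - j' : ℤ) : ℝ) * ψ = j * ψ - j' * ψ := by push_cast; ring
        rw [this]
        have : (((j : ℤ) + j' : ℤ) : ℝ) * ψ = j * ψ + j' * ψ := by push_cast; ring
        rw [this, Real.cos_sub, Real.cos_add, pow_add]
        ring_nf
      rw [e]
      exact Submodule.smul_mem _ _ (Submodule.add_mem _ (gcz a1 _) (gcz a2 _))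
    · have e : (fun ψ δ : ℝ => β (P₀ ψ δ) (P₁ ψ δ)) =
          (1 / 2 : ℝ) • ((fun ψ δ : ℝ => (δ ^ (k + k') * Real.sin (((j : ℤ) + j' : ℤ) * ψ)) •
            β m m') - fun ψ δ : ℝ => (δ ^ (k + k') * Real.sin (((j : ℤ) - j' : ℤ) * ψ)) •
            β m m') := by
        funext ψ δ
        rw [h0, h1]
        simp only [map_smul, _root_.smul_apply, Pi.smul_apply, Pi.sub_apply,
          smul_smul, ← sub_smul]
        have : (((j : ℤ) - j' : ℤ) : ℝ) * ψ = j * ψ - j' * ψ := by push_cast; ring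
        rw [this]
        have : (((j : ℤ) + j' : ℤ) : ℝ) * ψ = j * ψ + j' * ψ := by push_cast; ring
        rw [this, Real.sin_sub, Real.sin_add, pow_add]
        ring_nf
      rw [e]
      exact Submodule.smul_mem _ _ (Submodule.sub_mem _ (gsz a2 _) (gsz a1 _))
    · have e : (fun ψ δ : ℝ => β (P₀ ψ δ) (P₁ ψ δ)) =
          (1 / 2 : ℝ) • ((fun ψ δ : ℝ => (δ ^ (k + k') * Real.sin (((j : ℤ) + j' : ℤ) * ψ)) •
            β m m') + fun ψ δ : ℝ => (δ ^ (k + k') * Real.sin (((j : ℤ) - j' : ℤ) * ψ)) •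
            β m m') := by
        funext ψ δ
        rw [h0, h1]
        simp only [map_smul, _root_.smul_apply, Pi.smul_apply, Pi.add_apply,
          smul_smul, ← add_smul]
        have : (((j : ℤ) - j' : ℤ) : ℝ) * ψ = j * ψ - j' * ψ := by push_cast; ring
        rw [this]
        have : (((j : ℤ) + j' : ℤ) : ℝ) * ψ = j * ψ + j' * ψ := by push_cast; ring
        rw [this, Real.sin_sub, Real.sin_add, pow_add]
        ring_nf
      rw [e]
      exact Submodule.smul_mem _ _ (Submodule.add_mem _ (gsz a2 _) (gsz a1 _))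
    · have e : (fun ψ δ : ℝ => β (P₀ ψ δ) (P₁ ψ δ)) =
          (1 / 2 : ℝ) • ((fun ψ δ : ℝ => (δ ^ (k + k') * Real.cos (((j : ℤ) - j' : ℤ) * ψ)) •
            β m m') - fun ψ δ : ℝ => (δ ^ (k + k') * Real.cos (((j : ℤ) + j' : ℤ) * ψ)) •
            β m m') := by
        funext ψ δ
        rw [h0, h1]
        simp only [map_smul, _root_.smul_apply, Pi.smul_apply, Pi.sub_apply,
          smul_smul, ← sub_smul]
        have : (((j : ℤ) - j' : ℤ) : ℝ) * ψ = j * ψ - j' * ψ := by push_cast; ring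
        rw [this]
        have : (((j : ℤ) + j' : ℤ) : ℝ) * ψ = j * ψ + j' * ψ := by push_cast; ring
        rw [this, Real.cos_sub, Real.cos_add, pow_add]
        ring_nf
      rw [e]
      exact Submodule.smul_mem _ _ (Submodule.sub_mem _ (gcz a1 _) (gcz a2 _))
  have key2 : ∀ P₀ : ℝ → ℝ → M₁, P₀ ∈ {P : ℝ → ℝ → M₁ | ∃ k j : ℕ, j ≤ c + α * k ∧ ∃ m : M₁,
      (P = fun ψ δ => (δ ^ k * Real.cos (j * ψ)) • m) ∨
      P = fun ψ δ => (δ ^ k * Real.sin (j * ψ)) • m} →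
      (fun ψ δ => β (P₀ ψ δ) (P' ψ δ)) ∈ PP M₃ α (c + c') := by
    intro P₀ h0
    unfold PP at hP'
    induction hP' using Submodule.span_induction with
    | mem P₁ h1 => exact key P₀ h0 P₁ h1
    | zero =>
      have e : (fun ψ δ : ℝ => β (P₀ ψ δ) ((0 : ℝ → ℝ → M₂) ψ δ)) = 0 := by
        funext ψ δ
        simp
      rw [e]
      exact Submodule.zero_mem _
    | add x y _ _ hx hy =>
      have e : (fun ψ δ : ℝ => β (P₀ ψ δ) ((x + y) ψ δ)) =
          (fun ψ δ : ℝ => β (P₀ ψ δ) (x ψ δ)) + fun ψ δ : ℝ => β (P₀ ψ δ) (y ψ δ) := by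
        funext ψ δ
        simp
      rw [e]
      exact Submodule.add_mem _ hx hy
    | smul a x _ hx =>
      have e : (fun ψ δ : ℝ => β (P₀ ψ δ) ((a • x) ψ δ)) =
          a • fun ψ δ : ℝ => β (P₀ ψ δ) (x ψ δ) := by
        funext ψ δ
        simp
      rw [e]
      exact Submodule.smul_mem _ _ hx
  unfold PP at hP
  induction hP using Submodule.span_induction with
  | mem P₀ h0 => exact key2 P₀ h0
  | zero =>
    have e : (fun ψ δ : ℝ => β ((0 : ℝ → ℝ → M₁) ψ δ) (P' ψ δ)) = 0 := by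
      funext ψ δ
      simp
    rw [e]
    exact Submodule.zero_mem _
  | add x y _ _ hx hy =>
    have e : (fun ψ δ : ℝ => β ((x + y) ψ δ) (P' ψ δ)) =
        (fun ψ δ : ℝ => β (x ψ δ) (P' ψ δ)) + fun ψ δ : ℝ => β (y ψ δ) (P' ψ δ) := by
      funext ψ δ
      simp
    rw [e]
    exact Submodule.add_mem _ hx hy
  | smul a x _ hx =>
    have e : (fun ψ δ : ℝ => β ((a • x) ψ δ) (P' ψ δ)) =
        a • fun ψ δ : ℝ => β (x ψ δ) (P' ψ δ) := by
      funext ψ δ
      simp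
    rw [e]
    exact Submodule.smul_mem _ _ hx

end Pool.Agent.BE01.H48
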