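import Pool.Agent.BE01.StmtsS

/-!
# Squad BE01, module OPR: the solution operator of the radial equation
-/

namespace Pool.Agent.BE01.H48

open Set Filter Topology MeasureTheory
open scoped InnerProductSpace ENNReal
open Pool.Agent.BE01

noncomputable section

section

variable {d : ℕ} {r0 r1 : ℝ} {h : r0 ≤ r1}

theorem kInt [IsFiniteMeasure (nu d h)] (k : Lp ℝ 2 (nu d h)) : Integrable k (nu d h) :=
  (Lp.memLp k).integrable (by norm_num)

theorem mS (r : ℝ) : MeasurableSet {s : Ic r0 r1 | (s : ℝ) ≤ r} :=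
  measurableSet_le measurable_subtype_coe measurable_const

theorem KK_inner [IsFiniteMeasure (nu d h)] (k : Lp ℝ 2 (nu d h)) (r : ℝ) :
    KK k r = ⟪indicatorConstLp 2 (mS (r0 := r0) (r1 := r1) r)
      (measure_ne_top (nu d h) _) (1 : ℝ), k⟫_ℝ := by
  rw [L2.inner_indicatorConstLp_one]
  rfl

theorem KK_le [IsFiniteMeasure (nu d h)] : ∃ M0 : ℝ, 0 ≤ M0 ∧ ∀ (k : Lp ℝ 2 (nu d h)) (r : ℝ),
    |KK k r| ≤ M0 * ‖k‖ := by
  refine ⟨(nu d h).real univ ^ (1 / (2 : ℝ≥0∞).toReal), by positivity, ?_⟩
  intro k r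
  rw [KK_inner]
  refine (abs_real_inner_le_norm _ _).trans ?_
  refine mul_le_mul_of_nonneg_right ?_ (norm_nonneg _)
  rw [norm_indicatorConstLp (by norm_num) (by norm_num)]
  rw [norm_one, one_mul]
  refine Real.rpow_le_rpow measureReal_nonneg ?_ (by positivity)
  exact measureReal_mono (subset_univ _)

theorem KK_add [IsFiniteMeasure (nu d h)] (k k' : Lp ℝ 2 (nu d h)) (r : ℝ) :
    KK (k + k') r = KK k r + KK k' r := by
  rw [KK_inner, KK_inner, KK_inner, inner_add_right]

theorem KK_smul [IsFiniteMeasure (nu d h)] (a : ℝ) (k : Lp ℝ 2 (nu d h)) (r : ℝ) :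
    KK (a • k) r = a * KK k r := by
  rw [KK_inner, KK_inner, inner_smul_right]

theorem KK_cont [IsFiniteMeasure (nu d h)] (hna : ∀ r, nu d h {r} = 0) (k : Lp ℝ 2 (nu d h)) :
    Continuous (KK k) := by
  rw [continuous_iff_continuousAt]
  intro r
  have e : KK k = fun r => ∫ s, indicator {s : Ic r0 r1 | (s : ℝ) ≤ r} (fun s => k s) s
      ∂(nu d h) := by
    funext r
    rw [integral_indicator (mS r)]
    rfl
  rw [e]
  refine continuousAt_of_dominated (bound := fun s => ‖k s‖) ?_ ?_ (kInt k).norm ?_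
  · refine Eventually.of_forall fun r' => ?_
    exact ((kInt k).indicator (mS r')).aestronglyMeasurable
  · refine Eventually.of_forall fun r' => Eventually.of_forall fun s => ?_
    exact norm_indicator_le_norm_self _ _
  · have hz : nu d h {s : Ic r0 r1 | (s : ℝ) = r} = 0 := by
      by_cases hr : r ∈ Icc r0 r1
      · refine measure_mono_null ?_ (hna ⟨r, hr⟩)
        intro s hs
        exact Subtype.ext hs
      · have : {s : Ic r0 r1 | (s : ℝ) = r} = ∅ := by
          ext s
          simp only [mem_ofPred_eq, mem_empty_iff_false, iff_false]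
          intro hs
          exact hr (by rw [← hs]; exact s.2)
        rw [this]
        exact measure_empty
    have hae : ∀ᵐ s : Ic r0 r1 ∂(nu d h), (s : ℝ) ≠ r := by
      rw [ae_iff]
      simpa using hz
    filter_upwards [hae] with s hs
    rcases lt_or_gt_of_ne hs with hlt | hgt
    · have : (fun r' => indicator {s : Ic r0 r1 | (s : ℝ) ≤ r'} (fun s => k s) s) =ᶠ[𝓝 r]
          fun _ => k s := by
        filter_upwards [Ioi_mem_nhds hlt] with r' hr'
        have hr2 : (s : ℝ) ≤ r' := le_of_lt hr'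
        exact indicator_of_mem (s := {s : Ic r0 r1 | (s : ℝ) ≤ r'}) hr2 _
      exact continuousAt_const.congr this.symm
    · have : (fun r' => indicator {s : Ic r0 r1 | (s : ℝ) ≤ r'} (fun s => k s) s) =ᶠ[𝓝 r]
          fun _ => 0 := by
        filter_upwards [Iio_mem_nhds hgt] with r' hr'
        have hr2 : ¬ (s : ℝ) ≤ r' := not_le.2 hr'
        exact indicator_of_notMem (s := {s : Ic r0 r1 | (s : ℝ) ≤ r'}) hr2 _
      exact continuousAt_const.congr this.symm

theorem fub [IsFiniteMeasure (nu d h)] (k : Lp ℝ 2 (nu d h)) (g : ℝ → ℝ)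
    (hg : ContinuousOn g (Icc r0 r1)) :
    ∫ s in r0..r1, KK k s * g s = ∫ t, k t * (∫ s in (t : ℝ)..r1, g s) ∂(nu d h) := by
  have hgi : Integrable g (volume.restrict (Ioc r0 r1)) :=
    (hg.integrableOn_Icc).mono_set Ioc_subset_Icc_self
  have hm : MeasurableSet {z : ℝ × Ic r0 r1 | (z.2 : ℝ) ≤ z.1} :=
    measurableSet_le (measurable_subtype_coe.comp measurable_snd) measurable_fst
  have hF : Integrable (indicator {z : ℝ × Ic r0 r1 | (z.2 : ℝ) ≤ z.1}
      (fun z => g z.1 * k z.2)) ((volume.restrict (Ioc r0 r1)).prod (nu d h)) :=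
    (hgi.mul_prod (kInt k)).indicator hm
  have hsw := integral_integral_swap (f := fun s t => indicator
    {z : ℝ × Ic r0 r1 | (z.2 : ℝ) ≤ z.1} (fun z => g z.1 * k z.2) (s, t)) hF
  rw [intervalIntegral.integral_of_le h]
  have e1 : ∀ s : ℝ, ∫ t, indicator {z : ℝ × Ic r0 r1 | (z.2 : ℝ) ≤ z.1}
      (fun z => g z.1 * k z.2) (s, t) ∂(nu d h) = KK k s * g s := by
    intro s
    have : (fun t => indicator {z : ℝ × Ic r0 r1 | (z.2 : ℝ) ≤ z.1}
        (fun z => g z.1 * k z.2) (s, t)) = fun t => g s *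
        indicator {t : Ic r0 r1 | (t : ℝ) ≤ s} (fun t => k t) t := by
      funext t
      by_cases ht : (t : ℝ) ≤ s
      · rw [indicator_of_mem (show (s, t) ∈ {z : ℝ × Ic r0 r1 | (z.2 : ℝ) ≤ z.1} from ht),
          indicator_of_mem (show t ∈ {t : Ic r0 r1 | (t : ℝ) ≤ s} from ht)]
      · rw [indicator_of_notMem (show (s, t) ∉ {z : ℝ × Ic r0 r1 | (z.2 : ℝ) ≤ z.1} from ht),
          indicator_of_notMem (show t ∉ {t : Ic r0 r1 | (t : ℝ) ≤ s} from ht), mul_zero]
    rw [this, integral_const_mul, integral_indicator (mS s)]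
    rw [mul_comm]
    rfl
  have e2 : ∀ t : Ic r0 r1, ∫ s in Ioc r0 r1, indicator {z : ℝ × Ic r0 r1 | (z.2 : ℝ) ≤ z.1}
      (fun z => g z.1 * k z.2) (s, t) = k t * (∫ s in (t : ℝ)..r1, g s) := by
    intro t
    have : (fun s => indicator {z : ℝ × Ic r0 r1 | (z.2 : ℝ) ≤ z.1}
        (fun z => g z.1 * k z.2) (s, t)) = fun s => k t *
        indicator (Ici (t : ℝ)) g s := by
      funext s
      by_cases ht : (t : ℝ) ≤ s
      · rw [indicator_of_mem (show (s, t) ∈ {z : ℝ × Ic r0 r1 | (z.2 : ℝ) ≤ z.1} from ht),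
          indicator_of_mem (show s ∈ Ici (t : ℝ) from ht), mul_comm]
      · rw [indicator_of_notMem (show (s, t) ∉ {z : ℝ × Ic r0 r1 | (z.2 : ℝ) ≤ z.1} from ht),
          indicator_of_notMem (show s ∉ Ici (t : ℝ) from ht), mul_zero]
    rw [this, integral_const_mul, setIntegral_indicator measurableSet_Ici,
      intervalIntegral.integral_of_le t.2.2]
    congr 1
    refine setIntegral_congr_set ?_
    have : Ioc (t : ℝ) r1 = Ioc r0 r1 ∩ Ioi (t : ℝ) := by
      ext s
      simp only [mem_Ioc, mem_inter_iff, mem_Ioi]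
      constructor
      · rintro ⟨h1, h2⟩
        exact ⟨⟨t.2.1.trans_lt h1, h2⟩, h1⟩
      · rintro ⟨⟨h1, h2⟩, h3⟩
        exact ⟨h3, h2⟩
    rw [this]
    exact (ae_eq_refl _).inter Ioi_ae_eq_Ici.symm
  simp only [e1, e2] at hsw
  exact hsw

theorem qq_cont (hr0 : 0 < r0) (hsg : 0 < sg d) : ContinuousOn (qq d) (Icc r0 r1) := by
  refine continuousOn_const.div (continuousOn_const.mul (continuousOn_id.pow _)) ?_
  intro s hs
  have : 0 < s := hr0.trans_le hs.1
  have : 0 < sg d * s ^ (d - 1) := by positivity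
  exact this.ne'

theorem qq_pos (hr0 : 0 < r0) (hsg : 0 < sg d) {s : ℝ} (hs : s ∈ Icc r0 r1) : 0 < qq d s := by
  have h1 : 0 < s := hr0.trans_le hs.1
  unfold qq
  positivity

theorem opr (pol : PolStmt) : OprStmt := by
  intro d r0 r1 h hd hr0 hr1
  obtain ⟨hsg, hfin, -, hna, -⟩ := pol d r0 r1 h hd hr0 hr1
  have := hfin
  obtain ⟨M0, hM0, hK⟩ := KK_le (d := d) (h := h)
  have hqc : ContinuousOn (qq d) (Icc r0 r1) := qq_cont hr0 hsg
  have hqcu : ContinuousOn (qq d) (uIcc r0 r1) := by rwa [uIcc_of_le h]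
  have hqi : IntervalIntegrable (qq d) volume r0 r1 := hqcu.intervalIntegrable
  obtain ⟨Q, hQ⟩ := isCompact_Icc.exists_bound_of_continuousOn hqc
  have hQ0 : 0 ≤ Q := (norm_nonneg _).trans (hQ r0 (left_mem_Icc.2 h))
  have hIq : 0 < ∫ s in r0..r1, qq d s := by
    refine intervalIntegral.intervalIntegral_pos_of_pos_on hqi ?_ hr1
    intro s hs
    exact qq_pos hr0 hsg (Ioo_subset_Icc_self hs)
  have hKc := fun k : Lp ℝ 2 (nu d h) => KK_cont hna k
  have hfc : ∀ k : Lp ℝ 2 (nu d h), Continuous (flx k) := fun k =>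
    continuous_const.sub (hKc k)
  have hqK : ∀ k : Lp ℝ 2 (nu d h), IntervalIntegrable (fun s => qq d s * KK k s) volume r0 r1 :=
    fun k => (hqcu.mul (hKc k).continuousOn).intervalIntegrable
  have hqf : ∀ k : Lp ℝ 2 (nu d h), ContinuousOn (fun s => qq d s * flx k s) (Icc r0 r1) :=
    fun k => hqc.mul (hfc k).continuousOn
  have hqfi : ∀ (k : Lp ℝ 2 (nu d h)) (a b : ℝ), a ∈ Icc r0 r1 → b ∈ Icc r0 r1 →
      IntervalIntegrable (fun s => qq d s * flx k s) volume a b := by
    intro k a b ha hb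
    refine ContinuousOn.intervalIntegrable ((hqf k).mono ?_)
    exact uIcc_subset_Icc ha hb
  have hkc_add : ∀ k k' : Lp ℝ 2 (nu d h), kc (k + k') = kc k + kc k' := by
    intro k k'
    unfold kc
    rw [← add_div, ← intervalIntegral.integral_add (hqK k) (hqK k')]
    simp only [KK_add, mul_add]
  have hkc_smul : ∀ (a : ℝ) (k : Lp ℝ 2 (nu d h)), kc (a • k) = a * kc k := by
    intro a k
    unfold kc
    rw [mul_div_assoc', ← intervalIntegral.integral_const_mul]
    congr 2
    funext s
    rw [KK_smul]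
    ring
  have hf_add : ∀ (k k' : Lp ℝ 2 (nu d h)) (r : ℝ), flx (k + k') r = flx k r + flx k' r := by
    intro k k' r
    unfold flx
    rw [hkc_add, KK_add]
    ring
  have hf_smul : ∀ (a : ℝ) (k : Lp ℝ 2 (nu d h)) (r : ℝ), flx (a • k) r = a * flx k r := by
    intro a k r
    unfold flx
    rw [hkc_smul, KK_smul]
    ring
  have hkc_le : ∀ k : Lp ℝ 2 (nu d h), |kc k| ≤
      (Q * M0 * (r1 - r0) / ∫ s in r0..r1, qq d s) * ‖k‖ := by
    intro k
    unfold kc
    rw [abs_div, abs_of_pos hIq, div_mul_eq_mul_div]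
    refine div_le_div_of_nonneg_right ?_ hIq.le
    have := intervalIntegral.norm_integral_le_of_norm_le_const (a := r0) (b := r1)
      (f := fun s => qq d s * KK k s) (C := Q * (M0 * ‖k‖)) ?_
    · rw [Real.norm_eq_abs, abs_of_pos (sub_pos.2 hr1)] at this
      linarith
    · intro s hs
      rw [uIoc_of_le h] at hs
      rw [norm_mul]
      exact mul_le_mul (hQ s (Ioc_subset_Icc_self hs)) (hK k s) (norm_nonneg _) hQ0
  obtain ⟨C1, hC1, hf⟩ : ∃ C1 : ℝ, 0 ≤ C1 ∧ ∀ (k : Lp ℝ 2 (nu d h)) (r : ℝ),
      |flx k r| ≤ C1 * ‖k‖ := by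
    refine ⟨(Q * M0 * (r1 - r0) / ∫ s in r0..r1, qq d s) + M0, ?_, ?_⟩
    · have : 0 ≤ r1 - r0 := sub_nonneg.2 h
      positivity
    · intro k r
      unfold flx
      refine (abs_sub _ _).trans ?_
      rw [add_mul]
      exact add_le_add (hkc_le k) (hK k r)
  have hzero : ∀ k : Lp ℝ 2 (nu d h), ∫ s in r0..r1, qq d s * flx k s = 0 := by
    intro k
    have e : (fun s => qq d s * flx k s) = fun s => kc k * qq d s - qq d s * KK k s := by
      funext s
      unfold flx
      ring
    rw [e, intervalIntegral.integral_sub (hqi.const_mul _) (hqK k),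
      intervalIntegral.integral_const_mul]
    unfold kc
    field_simp
    ring
  have hprim : ∀ k : Lp ℝ 2 (nu d h), ContinuousOn (fun r => ∫ s in r0..r, qq d s * flx k s)
      (Icc r0 r1) := by
    intro k
    have := intervalIntegral.continuousOn_primitive_interval (μ := volume) (a := r0) (b := r1)
      (f := fun s => qq d s * flx k s) (by
        rw [uIcc_of_le h]
        exact (hqf k).integrableOn_Icc)
    rwa [uIcc_of_le h] at this
  let D : Lp ℝ 2 (nu d h) →L[ℝ] C(Ic r0 r1, ℝ) :=
    LinearMap.mkContinuous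
      { toFun := fun k => ⟨fun r : Ic r0 r1 => qq d r * flx k r, (hqf k).domRestrict⟩
        map_add' := by
          intro k k'
          ext r
          show qq d r * flx (k + k') r = qq d r * flx k r + qq d r * flx k' r
          rw [hf_add]
          ring
        map_smul' := by
          intro a k
          ext r
          show qq d r * flx (a • k) r = a * (qq d r * flx k r)
          rw [hf_smul]
          ring } (Q * C1) (by
      intro k
      rw [ContinuousMap.norm_le _ (by positivity)]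
      intro r
      show ‖qq d r * flx k r‖ ≤ Q * C1 * ‖k‖
      rw [norm_mul, mul_assoc]
      exact mul_le_mul (hQ r r.2) (hf k r) (norm_nonneg _) hQ0)
  let SX : Lp ℝ 2 (nu d h) →L[ℝ] C(Ic r0 r1, ℝ) :=
    LinearMap.mkContinuous
      { toFun := fun k => ⟨fun r : Ic r0 r1 => ∫ s in r0..(r : ℝ), qq d s * flx k s,
          (hprim k).domRestrict⟩
        map_add' := by
          intro k k'
          ext r
          show ∫ s in r0..(r : ℝ), qq d s * flx (k + k') s =
            (∫ s in r0..(r : ℝ), qq d s * flx k s) + ∫ s in r0..(r : ℝ), qq d s * flx k' s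
          simp only [hf_add, mul_add]
          exact intervalIntegral.integral_add (hqfi k _ _ (left_mem_Icc.2 h) r.2)
            (hqfi k' _ _ (left_mem_Icc.2 h) r.2)
        map_smul' := by
          intro a k
          ext r
          show ∫ s in r0..(r : ℝ), qq d s * flx (a • k) s =
            a * ∫ s in r0..(r : ℝ), qq d s * flx k s
          rw [← intervalIntegral.integral_const_mul]
          simp only [hf_smul]
          congr 1
          funext s
          ring } (Q * C1 * (r1 - r0)) (by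
      intro k
      have h10 : 0 ≤ r1 - r0 := sub_nonneg.2 h
      rw [ContinuousMap.norm_le _ (by positivity)]
      intro r
      show ‖∫ s in r0..(r : ℝ), qq d s * flx k s‖ ≤ Q * C1 * (r1 - r0) * ‖k‖
      have := intervalIntegral.norm_integral_le_of_norm_le_const (a := r0) (b := (r : ℝ))
        (f := fun s => qq d s * flx k s) (C := Q * (C1 * ‖k‖)) ?_
      · refine this.trans ?_
        rw [abs_of_nonneg (sub_nonneg.2 r.2.1)]
        have h2 : (r : ℝ) - r0 ≤ r1 - r0 := sub_le_sub_right r.2.2 _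
        have h3 : 0 ≤ Q * (C1 * ‖k‖) := by positivity
        nlinarith [mul_le_mul_of_nonneg_left h2 h3]
      · intro s hs
        rw [uIoc_of_le r.2.1] at hs
        rw [norm_mul]
        exact mul_le_mul (hQ s ⟨hs.1.le, hs.2.trans r.2.2⟩) (hf k s) (norm_nonneg _) hQ0)
  have hD : ∀ (k : Lp ℝ 2 (nu d h)) (r : Ic r0 r1), D k r = qq d r * flx k r := fun _ _ => rfl
  have hSX : ∀ (k : Lp ℝ 2 (nu d h)) (r : Ic r0 r1),
      SX k r = ∫ s in r0..(r : ℝ), qq d s * flx k s := fun _ _ => rfl
  refine ⟨D, SX, hD, hSX, hzero, fun k => (hfc k).continuousOn, ?_, ?_⟩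
  · intro k η η' hη hη' h0 h1
    have hint : ∀ a b : ℝ, IntervalIntegrable η' volume a b := fun a b =>
      hη'.intervalIntegrable a b
    have hftc : ∀ a b : ℝ, ∫ s in a..b, η' s = η b - η a := fun a b =>
      intervalIntegral.integral_eq_sub_of_hasDerivAt (fun s _ => hη s) (hint a b)
    have e : (fun s => flx k s * η' s) = fun s => kc k * η' s - KK k s * η' s := by
      funext s
      unfold flx
      ring
    have hi2 : IntervalIntegrable (fun s => KK k s * η' s) volume r0 r1 :=
      ((hKc k).mul hη').intervalIntegrable _ _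
    rw [e, intervalIntegral.integral_sub ((hint _ _).const_mul _) hi2,
      intervalIntegral.integral_const_mul, fub k η' hη'.continuousOn, hftc, h0, h1]
    simp only [hftc, h1]
    rw [sub_zero, mul_zero, zero_sub, ← integral_neg]
    congr 1
    funext s
    ring
  · intro k k'
    have hfub := fub k' (fun s => qq d s * flx k s) (hqf k)
    have e1 : ∀ t : Ic r0 r1, ∫ s in (t : ℝ)..r1, qq d s * flx k s = - SX k t := by
      intro t
      have := intervalIntegral.integral_add_adjacent_intervals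
        (hqfi k r0 t (left_mem_Icc.2 h) t.2) (hqfi k t r1 t.2 (right_mem_Icc.2 h))
      rw [hzero k] at this
      rw [hSX]
      linarith
    simp only [e1] at hfub
    have e2 : (fun s => qq d s * flx k s * flx k' s) = fun s =>
        kc k' * (qq d s * flx k s) - KK k' s * (qq d s * flx k s) := by
      funext s
      simp only [flx]
      ring
    have hi2 : IntervalIntegrable (fun s => KK k' s * (qq d s * flx k s)) volume r0 r1 := by
      refine ContinuousOn.intervalIntegrable ?_
      rw [uIcc_of_le h]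
      exact (hKc k').continuousOn.mul (hqf k)
    rw [e2, intervalIntegral.integral_sub
      ((hqfi k r0 r1 (left_mem_Icc.2 h) (right_mem_Icc.2 h)).const_mul _) hi2,
      intervalIntegral.integral_const_mul, hzero k, hfub, mul_zero, zero_sub, ← integral_neg]
    congr 1
    funext s
    ring

end

end

end Pool.Agent.BE01.H48
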