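import Pool.Agent.BE01.StmtsC
import Pool.Agent.BE01.StmtsS

/-!
# Squad BE01, module WVA: wave operators from a solution operator with values in `X`
-/

namespace Pool.Agent.BE01.H48

open Set Filter Topology MeasureTheory
open scoped InnerProductSpace ENNReal
open Pool.Agent.BE01

noncomputable section

theorem wva : EibStmt → DiaStmt → WvaStmt := by
  intro eib dia X Y H _ _ _ _ _ _ _ _ _ A SX C hcpt hsymm hpos hC
  obtain ⟨κ, b, s, hs, hSb⟩ := eib H (A.e.comp SX) hcpt hsymm hpos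
  obtain ⟨R, Cc, Sn, hprp⟩ := dia H (A.e.comp SX) κ b s hs hSb
  have hRd : DenseRange R := by
    have : (LinearMap.range (R : H →ₗ[ℝ] H)).topologicalClosure = ⊤ := by
      rw [Submodule.topologicalClosure_eq_top_iff, Submodule.eq_bot_iff]
      intro x hx
      rw [Submodule.mem_orthogonal] at hx
      apply hprp.R_inj
      rw [map_zero, ← inner_self_eq_zero (𝕜 := ℝ)]
      have h1 := hx (R (R x)) ⟨R x, rfl⟩
      rw [hprp.R_symm] at h1
      exact h1
    have h2 := Submodule.dense_iff_topologicalClosure_eq_top.2 this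
    rw [LinearMap.coe_range] at h2
    exact h2
  have hin : ∀ h, ⟪A.e (SX h), h⟫_ℝ = ‖R h‖ ^ 2 := by
    intro h
    have h1 : A.e (SX h) = R (R h) := (hprp.RR h).symm
    rw [h1, hprp.R_symm, real_inner_self_eq_norm_sq]
  have hnorm : ∀ h, ‖SX h‖ ≤ Real.sqrt (max C 0) * ‖R h‖ := by
    intro h
    have h1 : ‖SX h‖ ^ 2 ≤ (Real.sqrt (max C 0) * ‖R h‖) ^ 2 := by
      rw [mul_pow, Real.sq_sqrt (le_max_right _ _), ← hin]
      refine (hC h).trans ?_
      rw [hin]
      exact mul_le_mul_of_nonneg_right (le_max_left _ _) (by positivity)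
    exact le_of_sq_le_sq h1 (by positivity)
  have hnorm2 : ∀ h, ‖A.i (SX h)‖ ≤ (‖A.i‖ * Real.sqrt (max C 0)) * ‖R h‖ := by
    intro h
    refine (A.i.le_opNorm _).trans ?_
    rw [mul_assoc]
    exact mul_le_mul_of_nonneg_left (hnorm h) (norm_nonneg _)
  let RY : H →L[ℝ] Y := LinearMap.extendOfNorm
    ((A.i.comp SX : H →L[ℝ] Y) : H →ₗ[ℝ] Y) (R : H →ₗ[ℝ] H)
  have hRY : ∀ h, RY (R h) = A.i (SX h) := by
    intro h
    exact LinearMap.extendOfNorm_eq (f := ((A.i.comp SX : H →L[ℝ] Y) : H →ₗ[ℝ] Y))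
      (e := (R : H →ₗ[ℝ] H)) hRd ⟨‖A.i‖ * Real.sqrt (max C 0), fun x => hnorm2 x⟩ h
  have hj : ∀ h, A.j (RY h) = R h := by
    intro h
    have h2 : (fun h => A.j (RY h)) = (R : H → H) := by
      apply hRd.equalizer (A.j.comp RY).continuous R.continuous
      funext x
      show A.j (RY (R x)) = R (R x)
      rw [hRY, hprp.RR]
      rfl
    exact congrFun h2 h
  exact ⟨{ S := A.e.comp SX, R := R, C := Cc, Sn := Sn, SX := SX, RY := RY, prp := hprp,
           e_SX := fun _ => rfl, j_RY := hj }, rfl⟩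

end

end Pool.Agent.BE01.H48
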